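import Pool.Agent.Helper52.KP.StM

/-!
# Project KP, module BLB: lower bound of Bergman functions
-/

set_option autoImplicit false

namespace Pool.Agent.Helper15.KP

open MeasureTheory Filter Pool.Agent.Helper52.KP
open scoped ContDiff ComplexOrder Topology

theorem isOpen_U (C : Cone) : IsOpen C.U := by
  have h : Continuous fun z : Fin C.m → ℂ => ev C.Δ z := MvPolynomial.continuous_eval C.Δ
  exact isOpen_compl_singleton.preimage h

theorem meas_U (C : Cone) : MeasurableSet C.U := (isOpen_U C).measurableSet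

/-- the products of square integrable functions are integrable -/
theorem int_prod {C : Cone} (hC : Good C) {f g : (Fin C.m → ℂ) → ℂ} (hf : L2 C.U C.u f)
    (hg : L2 C.U C.u g) :
    IntegrableOn (fun z => f z * star (g z) * (Real.exp (-C.u z) : ℂ)) C.U := by
  have hexp : AEStronglyMeasurable (fun z => (Real.exp (-C.u z) : ℂ)) (volume.restrict C.U) := by
    apply ContinuousOn.aestronglyMeasurable _ (meas_U C)
    apply Complex.continuous_ofReal.comp_continuousOn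
    exact Real.continuous_exp.comp_continuousOn hC.usm.continuousOn.neg
  have hstar : AEStronglyMeasurable (fun z => star (g z)) (volume.restrict C.U) :=
    continuous_star.comp_aestronglyMeasurable hg.1
  refine Integrable.mono' (hf.2.add hg.2) ((hf.1.mul hstar).mul hexp) ?_
  refine Eventually.of_forall fun z => ?_
  have he : (0 : ℝ) ≤ Real.exp (-C.u z) := (Real.exp_pos _).le
  rw [norm_mul, norm_mul, norm_star, Complex.norm_real, Real.norm_eq_abs, abs_of_nonneg he]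
  simp only [Pi.add_apply]
  have h1 : ‖f z‖ * ‖g z‖ ≤ ‖f z‖ ^ 2 + ‖g z‖ ^ 2 := by
    nlinarith [sq_nonneg (‖f z‖ - ‖g z‖), sq_nonneg (‖f z‖), sq_nonneg (‖g z‖)]
  calc ‖f z‖ * ‖g z‖ * Real.exp (-C.u z) ≤ (‖f z‖ ^ 2 + ‖g z‖ ^ 2) * Real.exp (-C.u z) :=
        mul_le_mul_of_nonneg_right h1 he
    _ = _ := by ring

/-- The norm in terms of an orthonormal basis. -/
theorem nrm_eq {C : Cone} (hC : Good C) (hM : StMOM) {D N : ℕ}
    {s : Fin N → MvPolynomial (Fin C.m) ℂ} (hs : ONB C D s) (a : Fin N → ℂ) :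
    nrm C.U C.u (fun z => ∑ j, a j * (ev (s j) z * ev C.J z)) = ∑ j, ‖a j‖ ^ 2 := by
  have hL : ∀ j, L2 C.U C.u (fun z => ev (s j) z * ev C.J z) := fun j =>
    (hM C hC).2.2.2 D (s j) (by rw [← hs.span]; exact Submodule.subset_span ⟨j, rfl⟩)
  have h1 : ((nrm C.U C.u (fun z => ∑ j, a j * (ev (s j) z * ev C.J z)) : ℝ) : ℂ) =
      ∑ i, ∑ j, a i * star (a j) *
        inn C.U C.u (fun z => ev (s i) z * ev C.J z) (fun z => ev (s j) z * ev C.J z) := by
    unfold nrm inn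
    rw [← integral_complex_ofReal]
    have e1 : ∀ z : Fin C.m → ℂ,
        (((‖∑ j, a j * (ev (s j) z * ev C.J z)‖ ^ 2 * Real.exp (-C.u z) : ℝ)) : ℂ) =
        ∑ i, ∑ j, a i * star (a j) * ((ev (s i) z * ev C.J z) * star (ev (s j) z * ev C.J z) *
          (Real.exp (-C.u z) : ℂ)) := by
      intro z
      have e2 : ((‖∑ j, a j * (ev (s j) z * ev C.J z)‖ ^ 2 : ℝ) : ℂ) =
          (∑ j, a j * (ev (s j) z * ev C.J z)) *
            star (∑ j, a j * (ev (s j) z * ev C.J z)) := by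
        rw [← Complex.normSq_eq_norm_sq, Complex.normSq_eq_conj_mul_self, mul_comm]
        rfl
      rw [Complex.ofReal_mul, e2, star_sum, Finset.sum_mul_sum, Finset.sum_mul]
      refine Finset.sum_congr rfl fun i _ => ?_
      rw [Finset.sum_mul]
      refine Finset.sum_congr rfl fun j _ => ?_
      rw [star_mul' (a j)]
      ring
    calc _ = ∫ z in C.U, ∑ i, ∑ j, a i * star (a j) *
          ((ev (s i) z * ev C.J z) * star (ev (s j) z * ev C.J z) *
          (Real.exp (-C.u z) : ℂ)) := by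
          refine integral_congr_ae (Eventually.of_forall fun z => ?_)
          exact e1 z
      _ = _ := by
          rw [integral_finset_sum _ fun i _ => integrable_finset_sum _ fun j _ =>
            (int_prod hC (hL i) (hL j)).const_mul _]
          refine Finset.sum_congr rfl fun i _ => ?_
          rw [integral_finset_sum _ fun j _ => (int_prod hC (hL i) (hL j)).const_mul _]
          refine Finset.sum_congr rfl fun j _ => ?_
          exact integral_const_mul _ _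
  have h2 : ((nrm C.U C.u (fun z => ∑ j, a j * (ev (s j) z * ev C.J z)) : ℝ) : ℂ) =
      ((∑ j, ‖a j‖ ^ 2 : ℝ) : ℂ) := by
    rw [h1, Complex.ofReal_sum]
    refine Finset.sum_congr rfl fun i _ => ?_
    rw [Finset.sum_eq_single i]
    · rw [hs.on, if_pos rfl, mul_one, ← Complex.normSq_eq_norm_sq,
        Complex.normSq_eq_conj_mul_self, mul_comm]
      rfl
    · intro j _ hj
      rw [hs.on, if_neg (Ne.symm hj), mul_zero]
    · intro h
      exact absurd (Finset.mem_univ i) h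
  exact_mod_cast h2

/-- The value of an element of `R D` at a point in terms of its norm. -/
theorem value_le {C : Cone} (hC : Good C) (hM : StMOM) {D N : ℕ}
    {s : Fin N → MvPolynomial (Fin C.m) ℂ} (hs : ONB C D s) {f : MvPolynomial (Fin C.m) ℂ}
    (hf : f ∈ C.R D) (z : Fin C.m → ℂ) :
    ‖ev f z‖ ^ 2 ≤ nrm C.U C.u (fun z => ev f z * ev C.J z) * ∑ j, ‖ev (s j) z‖ ^ 2 := by
  rw [← hs.span, Submodule.mem_span_range_iff_exists_fun] at hf
  obtain ⟨a, rfl⟩ := hf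
  have e1 : ∀ z : Fin C.m → ℂ, ev (∑ j, a j • s j) z = ∑ j, a j * ev (s j) z := by
    intro z
    simp [ev, map_sum, MvPolynomial.smul_eval]
  have e2 : (fun z => ev (∑ j, a j • s j) z * ev C.J z) =
      fun z => ∑ j, a j * (ev (s j) z * ev C.J z) := by
    funext z
    rw [e1, Finset.sum_mul]
    exact Finset.sum_congr rfl fun j _ => mul_assoc _ _ _
  rw [e2, nrm_eq hC hM hs, e1]
  calc ‖∑ j, a j * ev (s j) z‖ ^ 2 ≤ (∑ j, ‖a j‖ * ‖ev (s j) z‖) ^ 2 := by
        refine pow_le_pow_left₀ (norm_nonneg _) ?_ 2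
        refine (norm_sum_le _ _).trans (le_of_eq ?_)
        exact Finset.sum_congr rfl fun j _ => norm_mul _ _
    _ ≤ _ := Finset.sum_mul_sq_le_sq_mul_sq _ _ _

private lemma X_pow_mem {C : Cone} (hC : Good C) (i : Fin C.nx) (D : ℕ) :
    C.X i ^ D ∈ C.R D := by
  induction D with
  | zero => rw [pow_zero]; exact hC.one
  | succ D ih => rw [pow_succ]; exact hC.mul _ _ _ _ ih (hC.XR i)

private lemma exists_X {C : Cone} {z : Fin C.m → ℂ} (hz : 0 < C.sz z) :
    ∃ i, C.sz z ≤ ((C.nx : ℝ) + 1) * ‖ev (C.X i) z‖ := by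
  by_contra hcon
  push Not at hcon
  have h1 : C.sz z * ((C.nx : ℝ) + 1) ≤ C.nx * C.sz z := by
    calc C.sz z * ((C.nx : ℝ) + 1) = ∑ i, ((C.nx : ℝ) + 1) * ‖ev (C.X i) z‖ := by
          rw [← Finset.mul_sum]
          unfold Cone.sz
          ring
      _ ≤ ∑ _i : Fin C.nx, C.sz z := Finset.sum_le_sum fun i _ => (hcon i).le
      _ = C.nx * C.sz z := by simp
  nlinarith

private lemma X_le {C : Cone} (i : Fin C.nx) (z : Fin C.m → ℂ) : ‖ev (C.X i) z‖ ≤ C.sz z := by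
  unfold Cone.sz
  exact Finset.single_le_sum (f := fun i => ‖ev (C.X i) z‖) (fun j _ => norm_nonneg _)
    (Finset.mem_univ i)

private lemma nrm_X {C : Cone} (hC : Good C) (hM : StMOM) {a : ℝ} (ha : 0 < a)
    (hau : ∀ z ∈ C.U, a * C.sz z ≤ C.u z) (i : Fin C.nx) (D : ℕ) :
    nrm C.U C.u (fun z => ev (C.X i ^ D) z * ev C.J z) ≤
      (a⁻¹) ^ (2 * D) * (C.m * (2 * D + C.m - 1).factorial *
        (C.rd * (Real.pi / 2) ^ C.m / C.m.factorial)) := by
  obtain ⟨hm1, -, -, hm4⟩ := hM C hC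
  obtain ⟨hi, he⟩ := hm1 (2 * D)
  rw [← he, ← integral_const_mul]
  unfold nrm
  refine setIntegral_mono_on (hm4 D _ (X_pow_mem hC i D)).2 (hi.const_mul _) (meas_U C) ?_
  intro z hz
  have h1 : ‖ev (C.X i) z‖ ≤ a⁻¹ * C.u z := by
    have h2 := (X_le i z).trans (le_refl _)
    have h3 := hau z hz
    rw [inv_mul_eq_div, le_div_iff₀ ha]
    nlinarith
  have h4 : ‖ev (C.X i ^ D) z‖ ^ 2 = ‖ev (C.X i) z‖ ^ (2 * D) := by
    simp only [ev, map_pow, norm_pow]
    rw [← pow_mul, mul_comm]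
  rw [norm_mul, mul_pow, h4]
  have h5 : ‖ev (C.X i) z‖ ^ (2 * D) ≤ (a⁻¹ * C.u z) ^ (2 * D) :=
    pow_le_pow_left₀ (norm_nonneg _) h1 _
  rw [mul_pow] at h5
  have h6 : (0 : ℝ) ≤ Real.exp (-C.u z) * ‖ev C.J z‖ ^ 2 := by positivity
  calc ‖ev (C.X i) z‖ ^ (2 * D) * ‖ev C.J z‖ ^ 2 * Real.exp (-C.u z) =
      ‖ev (C.X i) z‖ ^ (2 * D) * (Real.exp (-C.u z) * ‖ev C.J z‖ ^ 2) := by ring
    _ ≤ (a⁻¹ ^ (2 * D) * C.u z ^ (2 * D)) * (Real.exp (-C.u z) * ‖ev C.J z‖ ^ 2) :=
      mul_le_mul_of_nonneg_right h5 h6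
    _ = _ := by ring

private lemma numeric {K q : ℝ} (hK : 0 < K) (hq : 0 < q) (m D : ℕ) (hD : 0 < D) :
    (min K 1 * q ^ 2 * (1 / 2) ^ (m - 1)) ^ D ≤ K * q ^ (2 * D) / (D : ℝ) ^ (m - 1) := by
  have h1 : (min K 1) ^ D ≤ K :=
    (pow_le_of_le_one (le_min hK.le zero_le_one) (min_le_right _ _) hD.ne').trans (min_le_left _ _)
  have h2 : ((1 / 2 : ℝ) ^ D) ≤ 1 / D := by
    rw [one_div_pow]
    have h3 : (D : ℝ) ≤ 2 ^ D := by exact_mod_cast (Nat.lt_two_pow_self (n := D)).le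
    exact one_div_le_one_div_of_le (by exact_mod_cast hD) h3
  have h3 : (((1 / 2 : ℝ) ^ (m - 1)) ^ D) ≤ 1 / (D : ℝ) ^ (m - 1) := by
    rw [← pow_mul, mul_comm, pow_mul, ← one_div_pow]
    exact pow_le_pow_left₀ (by positivity) h2 _
  have h0 : 0 ≤ (min K 1) ^ D := pow_nonneg (le_min hK.le zero_le_one) _
  rw [mul_pow, mul_pow, ← pow_mul]
  calc (min K 1) ^ D * q ^ (2 * D) * ((1 / 2) ^ (m - 1)) ^ D ≤
      K * q ^ (2 * D) * (1 / (D : ℝ) ^ (m - 1)) := by gcongr
    _ = _ := by ring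

/-- **BLB**. -/
theorem hBLB (hM : StMOM) : StBLB := by
  intro C hC
  obtain ⟨a, b, ha, hab⟩ := hC.ubd
  have hm : 0 < C.m := by have := hC.hm; have := hC.hn; omega
  have hmR : (0 : ℝ) < C.m := by exact_mod_cast hm
  have hrd : (0 : ℝ) < C.rd := by exact_mod_cast hC.rd0
  have hP : (0 : ℝ) < (Real.pi / 2) ^ C.m := by have := Real.pi_pos; positivity
  set ν₁ : ℝ := C.rd * (Real.pi / 2) ^ C.m / C.m.factorial with hν
  have hν0 : 0 < ν₁ := by positivity
  set b' : ℝ := max b 1 with hb'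
  have hb0 : 0 < b' := lt_max_of_lt_right one_pos
  set q : ℝ := a / (((C.nx : ℝ) + 1) * b') with hq
  have hnx : (0 : ℝ) < (C.nx : ℝ) + 1 := by positivity
  have hq0 : 0 < q := by positivity
  set K : ℝ := (Real.pi / 2) ^ C.m / (C.m * ν₁) with hK
  have hK0 : 0 < K := by positivity
  refine ⟨min K 1 * q ^ 2 * (1 / 2) ^ (C.m - 1), ?_, ?_⟩
  · have : 0 < min K 1 := lt_min hK0 one_pos
    positivity
  · intro D N hD s hs z hz
    have hsz := hC.Xpos z hz
    have hau : ∀ z ∈ C.U, a * C.sz z ≤ C.u z := fun z hz => (hab z hz).1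
    have hu0 : 0 < C.u z := lt_of_lt_of_le (mul_pos ha hsz) (hau z hz)
    have hub : C.u z ≤ b' * C.sz z :=
      ((hab z hz).2).trans (mul_le_mul_of_nonneg_right (le_max_left _ _) hsz.le)
    obtain ⟨i, hi⟩ := exists_X hsz
    have hv := value_le hC hM hs (X_pow_mem hC i D) z
    have hn := nrm_X hC hM ha hau i D
    set SS : ℝ := ∑ j, ‖ev (s j) z‖ ^ 2 with hS
    have hS0 : 0 ≤ SS := Finset.sum_nonneg fun j _ => sq_nonneg _
    set T : ℝ := ((2 * D + C.m - 1).factorial : ℝ) with hT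
    have hT0 : 0 < T := by rw [hT]; exact_mod_cast Nat.factorial_pos _
    have h4 : ‖ev (C.X i ^ D) z‖ ^ 2 = ‖ev (C.X i) z‖ ^ (2 * D) := by
      simp only [ev, map_pow, norm_pow]
      rw [← pow_mul, mul_comm]
    rw [h4] at hv
    -- `q^(2D) u^(2D) ≤ m T ν₁ SS`
    have h5 : q * C.u z ≤ a * ‖ev (C.X i) z‖ := by
      have h6 : C.u z ≤ b' * (((C.nx : ℝ) + 1) * ‖ev (C.X i) z‖) :=
        hub.trans (mul_le_mul_of_nonneg_left hi hb0.le)
      rw [hq, div_mul_eq_mul_div, div_le_iff₀ (by positivity)]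
      calc a * C.u z ≤ a * (b' * (((C.nx : ℝ) + 1) * ‖ev (C.X i) z‖)) :=
            mul_le_mul_of_nonneg_left h6 ha.le
        _ = _ := by ring
    have h6 : q ^ (2 * D) * C.u z ^ (2 * D) ≤ C.m * T * ν₁ * SS := by
      calc q ^ (2 * D) * C.u z ^ (2 * D) = (q * C.u z) ^ (2 * D) := (mul_pow _ _ _).symm
        _ ≤ (a * ‖ev (C.X i) z‖) ^ (2 * D) := pow_le_pow_left₀ (by positivity) h5 _
        _ = a ^ (2 * D) * ‖ev (C.X i) z‖ ^ (2 * D) := mul_pow _ _ _
        _ ≤ a ^ (2 * D) * (((a⁻¹) ^ (2 * D) * (C.m * T * ν₁)) * SS) := by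
            refine mul_le_mul_of_nonneg_left (hv.trans ?_) (by positivity)
            exact mul_le_mul_of_nonneg_right hn hS0
        _ = (a * a⁻¹) ^ (2 * D) * (C.m * T * ν₁ * SS) := by rw [mul_pow]; ring
        _ = _ := by rw [mul_inv_cancel₀ ha.ne', one_pow, one_mul]
    refine (numeric hK0 hq0 C.m D hD).trans ?_
    unfold Cone.berg
    have hDp : (0 : ℝ) < (D : ℝ) ^ (C.m - 1) := by
      have : (0 : ℝ) < D := by exact_mod_cast hD
      positivity
    have hup : 0 < C.u z ^ (2 * D) := by positivity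
    have e1 : T * (Real.pi / 2) ^ C.m / (D : ℝ) ^ (C.m - 1) * (SS / C.u z ^ (2 * D)) =
        (T * (Real.pi / 2) ^ C.m * SS / C.u z ^ (2 * D)) / (D : ℝ) ^ (C.m - 1) := by ring
    have e2 : K * q ^ (2 * D) = (Real.pi / 2) ^ C.m * q ^ (2 * D) / (C.m * ν₁) := by
      rw [hK]
      ring
    rw [← hS, ← hT, e1]
    refine div_le_div_of_nonneg_right ?_ hDp.le
    rw [e2, div_le_div_iff₀ (by positivity) hup]
    calc (Real.pi / 2) ^ C.m * q ^ (2 * D) * C.u z ^ (2 * D) =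
        (Real.pi / 2) ^ C.m * (q ^ (2 * D) * C.u z ^ (2 * D)) := by ring
      _ ≤ (Real.pi / 2) ^ C.m * (C.m * T * ν₁ * SS) := mul_le_mul_of_nonneg_left h6 hP.le
      _ = _ := by ring

end Pool.Agent.Helper15.KP
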