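import Pool.Agent.Helper85.KP.StE

/-!
# Project KP (MP_26be5b_ag), module EPG: pairing with the limit function
-/

set_option autoImplicit false

namespace Pool.Agent.Helper15.KP

open MeasureTheory Filter Pool.Agent.Helper52.KP Pool.Agent.Helper85.KP
open scoped ContDiff ComplexOrder Topology

namespace EPG

theorem memK {m : ℕ} {K : Set (Fin m → ℂ)} (hK : IsCompact K) {c f F : (Fin m → ℂ) → ℂ} {M : ℝ}
    (hc : AEStronglyMeasurable c (volume.restrict K)) (hcM : ∀ z ∈ K, ‖c z‖ ≤ M)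
    (hf : AEStronglyMeasurable f (volume.restrict K))
    (hf2 : IntegrableOn (fun z => ‖f z‖ ^ 2) K) (h1 : ∀ z ∈ K, F z = c z * f z)
    (h0 : ∀ z, z ∉ K → F z = 0) : MemLp F 2 volume ∧ Integrable F volume := by
  have hKm : MeasurableSet K := hK.measurableSet
  have e : F = K.indicator (fun z => c z * f z) := by
    funext z
    by_cases hz : z ∈ K
    · rw [Set.indicator_of_mem hz, h1 z hz]
    · rw [Set.indicator_of_notMem hz, h0 z hz]
  have hfL : MemLp f 2 (volume.restrict K) := (memLp_two_iff_integrable_sq_norm hf).2 hf2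
  have hcf : MemLp (fun z => c z * f z) 2 (volume.restrict K) := by
    refine MemLp.of_le_mul (c := M) hfL (hc.mul hf) ?_
    refine (ae_restrict_iff' hKm).2 (Eventually.of_forall fun z hz => ?_)
    rw [norm_mul]
    exact mul_le_mul_of_nonneg_right (hcM z hz) (norm_nonneg _)
  have : IsFiniteMeasure (volume.restrict K) :=
    ⟨by rw [Measure.restrict_apply_univ]; exact hK.measure_lt_top⟩
  rw [e]
  refine ⟨(memLp_indicator_iff_restrict hKm).2 hcf, ?_⟩
  rw [integrable_indicator_iff hKm]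
  exact hcf.integrable one_le_two

theorem memKc {m : ℕ} {K : Set (Fin m → ℂ)} (hK : IsCompact K) {c f F : (Fin m → ℂ) → ℂ}
    (hc : ContinuousOn c K) (hf : AEStronglyMeasurable f (volume.restrict K))
    (hf2 : IntegrableOn (fun z => ‖f z‖ ^ 2) K) (h1 : ∀ z ∈ K, F z = c z * f z)
    (h0 : ∀ z, z ∉ K → F z = 0) : MemLp F 2 volume ∧ Integrable F volume := by
  obtain ⟨M, hM⟩ := hK.exists_bound_of_continuousOn hc
  exact memK hK (hc.aestronglyMeasurable hK.measurableSet) hM hf hf2 h1 h0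

theorem lim_g {m : ℕ} {U K : Set (Fin m → ℂ)} (hK : IsCompact K) (hKU : K ⊆ U)
    {g : (Fin m → ℂ) → ℝ} {M : ℝ} (hg : ∀ z ∈ K, |g z| ≤ M)
    {f : ℕ → (Fin m → ℂ) → ℂ} (hf : ∀ i, MemLp (f i) 2 volume)
    (h0 : ∀ᶠ i in atTop, ∀ z, z ∉ K → f i z = 0)
    (hl : Tendsto (fun i => ∫ z, ‖f i z‖ ^ 2) atTop (𝓝 0)) :
    Tendsto (fun i => ∫ z in U, (g z : ℂ) * f i z) atTop (𝓝 0) := by
  obtain ⟨V, hV⟩ : ∃ V : ℝ, V = volume.real K := ⟨_, rfl⟩
  obtain ⟨t, ht⟩ : ∃ t : ℕ → ℝ, t = fun i : ℕ => Real.sqrt (∫ z, ‖f i z‖ ^ 2) + 1 / ((i : ℝ) + 1) :=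
    ⟨_, rfl⟩
  have ht0 : Tendsto t atTop (𝓝 0) := by
    rw [ht]
    simpa using (hl.sqrt).add (tendsto_one_div_add_atTop_nhds_zero_nat (𝕜 := ℝ))
  have hq0 : ∀ i, 0 ≤ ∫ z, ‖f i z‖ ^ 2 := fun i => integral_nonneg fun z => by positivity
  have htp : ∀ i, 0 < t i := by
    intro i
    rw [ht]
    have : (0 : ℝ) < 1 / ((i : ℝ) + 1) := by positivity
    have h2 := Real.sqrt_nonneg (∫ z, ‖f i z‖ ^ 2)
    simp only
    linarith
  have hqt : ∀ i, (∫ z, ‖f i z‖ ^ 2) ≤ t i ^ 2 := by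
    intro i
    have h1 : (0 : ℝ) < 1 / ((i : ℝ) + 1) := by positivity
    have h2 := Real.sqrt_nonneg (∫ z, ‖f i z‖ ^ 2)
    have h3 := Real.sq_sqrt (hq0 i)
    have h4 : Real.sqrt (∫ z, ‖f i z‖ ^ 2) ≤ t i := by
      rw [ht]
      simp only
      linarith
    calc (∫ z, ‖f i z‖ ^ 2) = Real.sqrt (∫ z, ‖f i z‖ ^ 2) ^ 2 := h3.symm
      _ ≤ t i ^ 2 := pow_le_pow_left₀ h2 h4 2
  refine squeeze_zero_norm' (a := fun i => |M| * (t i * V + t i)) ?_ ?_
  · filter_upwards [h0] with i hi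
    have e : ∫ z in U, (g z : ℂ) * f i z = ∫ z, (g z : ℂ) * f i z := by
      refine setIntegral_eq_integral_of_forall_compl_eq_zero fun z hz => ?_
      rw [hi z (fun h => hz (hKU h)), mul_zero]
    rw [e]
    have i1 : Integrable (fun z => ‖f i z‖ ^ 2) volume :=
      (memLp_two_iff_integrable_sq_norm (hf i).1).1 (hf i)
    have i2 : Integrable (K.indicator (fun _ => (1 : ℝ))) volume := by
      rw [integrable_indicator_iff hK.measurableSet]
      exact integrableOn_const hK.measure_lt_top.ne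
    have i3 : Integrable (fun z => |M| * (t i * K.indicator (fun _ => (1 : ℝ)) z +
        (t i)⁻¹ * ‖f i z‖ ^ 2)) volume :=
      ((i2.const_mul _).add (i1.const_mul _)).const_mul _
    refine (norm_integral_le_of_norm_le i3 (ae_of_all _ fun z => ?_)).trans ?_
    · rw [norm_mul, Complex.norm_real, Real.norm_eq_abs]
      by_cases hz : z ∈ K
      · rw [Set.indicator_of_mem hz]
        have h5 : |g z| ≤ |M| := (hg z hz).trans (le_abs_self M)
        have h6 : ‖f i z‖ ≤ t i * 1 + (t i)⁻¹ * ‖f i z‖ ^ 2 := by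
          have h7 := htp i
          have h8 : t i * ‖f i z‖ ≤ t i * (t i * 1 + (t i)⁻¹ * ‖f i z‖ ^ 2) := by
            have e1 : t i * (t i * 1 + (t i)⁻¹ * ‖f i z‖ ^ 2) = t i ^ 2 + ‖f i z‖ ^ 2 := by
              field_simp
            rw [e1]
            nlinarith [sq_nonneg (t i - ‖f i z‖), sq_nonneg (t i), sq_nonneg (‖f i z‖)]
          exact le_of_mul_le_mul_left h8 h7
        exact mul_le_mul h5 h6 (norm_nonneg _) (abs_nonneg _)
      · rw [hi z hz, Set.indicator_of_notMem hz]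
        simp
    · rw [integral_const_mul, integral_add (i2.const_mul _) (i1.const_mul _), integral_const_mul,
        integral_const_mul, integral_indicator_const _ hK.measurableSet, ← hV, smul_eq_mul, mul_one]
      refine mul_le_mul_of_nonneg_left ?_ (abs_nonneg _)
      have h7 := htp i
      have h8 : (t i)⁻¹ * (∫ z, ‖f i z‖ ^ 2) ≤ t i := by
        rw [inv_mul_le_iff₀ h7, ← pow_two]
        exact hqt i
      linarith
  · have := ((ht0.mul_const V).add ht0).const_mul |M|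
    simpa using this

theorem hf_mul {m : ℕ} (A : Matrix (Fin m) (Fin m) ℂ) (s : ℂ) (ξ : Fin m → ℂ) :
    hf A (fun j => s * ξ j) = ‖s‖ ^ 2 * hf A ξ := by
  unfold hf
  have e : ∑ j, ∑ k, A j k * (s * ξ j) * star (s * ξ k) =
      ((‖s‖ ^ 2 : ℝ) : ℂ) * ∑ j, ∑ k, A j k * ξ j * star (ξ k) := by
    rw [Finset.mul_sum]
    refine Finset.sum_congr rfl fun j _ => ?_
    rw [Finset.mul_sum]
    refine Finset.sum_congr rfl fun k _ => ?_
    have h1 : s * star s = ((‖s‖ ^ 2 : ℝ) : ℂ) := by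
      have := Complex.mul_conj' s
      rw [Complex.ofReal_pow]
      exact this
    rw [← h1, star_mul']
    ring
  rw [e, Complex.re_ofReal_mul]

theorem hf_pert {m : ℕ} {A : Matrix (Fin m) (Fin m) ℂ} {M : ℝ} (hA : ∀ j k, ‖A j k‖ ≤ M)
    (x y : Fin m → ℂ) {ε : ℝ} (hε : 0 < ε) :
    hf A x ≤ hf A y + M * (m * (ε * ∑ j, ‖y j‖ ^ 2 + (ε⁻¹ + 1) * ∑ j, ‖x j - y j‖ ^ 2)) := by
  obtain ⟨P, hP⟩ : ∃ P : Fin m → ℝ, P = fun j => ε * ‖y j‖ ^ 2 + (ε⁻¹ + 1) * ‖x j - y j‖ ^ 2 :=
    ⟨_, rfl⟩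
  have hterm : ∀ j k, ‖A j k * x j * star (x k) - A j k * y j * star (y k)‖ ≤
      M * ((P j + P k) / 2) := by
    intro j k
    have e : A j k * x j * star (x k) - A j k * y j * star (y k) =
        A j k * ((x j - y j) * star (x k - y k) + (x j - y j) * star (y k) +
          y j * star (x k - y k)) := by
      simp only [star_sub]
      ring
    rw [e, norm_mul]
    have h1 : ‖(x j - y j) * star (x k - y k) + (x j - y j) * star (y k) +
          y j * star (x k - y k)‖ ≤ ‖x j - y j‖ * ‖x k - y k‖ + ‖x j - y j‖ * ‖y k‖ +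
          ‖y j‖ * ‖x k - y k‖ := by
      refine (norm_add₃_le).trans ?_
      rw [norm_mul, norm_mul, norm_mul, norm_star, norm_star]
    have am : ∀ p q : ℝ, p * q ≤ (ε * q ^ 2 + ε⁻¹ * p ^ 2) / 2 := by
      intro p q
      have h2 : 0 ≤ ε⁻¹ * (ε * q - p) ^ 2 := by positivity
      have h3 : ε⁻¹ * (ε * q - p) ^ 2 = ε * q ^ 2 - 2 * (p * q) + ε⁻¹ * p ^ 2 := by
        field_simp
        ring
      linarith
    have h2 := am ‖x j - y j‖ ‖y k‖
    have h3 := am ‖x k - y k‖ ‖y j‖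
    have h4 : ‖x j - y j‖ * ‖x k - y k‖ ≤ (‖x j - y j‖ ^ 2 + ‖x k - y k‖ ^ 2) / 2 := by
      nlinarith [sq_nonneg (‖x j - y j‖ - ‖x k - y k‖)]
    have h5 : ‖(x j - y j) * star (x k - y k) + (x j - y j) * star (y k) +
          y j * star (x k - y k)‖ ≤ (P j + P k) / 2 := by
      refine h1.trans ?_
      rw [hP]
      simp only
      rw [mul_comm ‖y j‖]
      linarith
    exact mul_le_mul (hA j k) h5 (norm_nonneg _) ((norm_nonneg _).trans (hA j k))
  have hsum : hf A x - hf A y ≤ ∑ j, ∑ k, M * ((P j + P k) / 2) := by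
    unfold hf
    rw [← Complex.sub_re, ← Finset.sum_sub_distrib]
    refine (Complex.re_le_norm _).trans ?_
    refine (norm_sum_le _ _).trans (Finset.sum_le_sum fun j _ => ?_)
    rw [← Finset.sum_sub_distrib]
    exact (norm_sum_le _ _).trans (Finset.sum_le_sum fun k _ => hterm j k)
  have e2 : ∑ j : Fin m, ∑ k : Fin m, M * ((P j + P k) / 2) = M * (m * ∑ j, P j) := by
    simp only [← Finset.mul_sum]
    congr 1
    have h6 : ∀ j : Fin m, ∑ k : Fin m, (P j + P k) / 2 = (m * P j + ∑ k, P k) / 2 := by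
      intro j
      rw [← Finset.sum_div, Finset.sum_add_distrib, Finset.sum_const, Finset.card_univ,
        Fintype.card_fin, nsmul_eq_mul]
    simp only [h6]
    rw [← Finset.sum_div, Finset.sum_add_distrib, Finset.sum_const, Finset.card_univ,
        Fintype.card_fin, nsmul_eq_mul, ← Finset.mul_sum]
    ring
  have e3 : ∑ j, P j = ε * ∑ j, ‖y j‖ ^ 2 + (ε⁻¹ + 1) * ∑ j, ‖x j - y j‖ ^ 2 := by
    rw [hP]
    simp only
    rw [Finset.sum_add_distrib, ← Finset.mul_sum, ← Finset.mul_sum]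
  rw [e2, e3] at hsum
  linarith

theorem tst_shift {m : ℕ} {φ : ℕ → (Fin m → ℂ) → ℝ} (hφ : Mol φ) (i : ℕ) (z : Fin m → ℂ) :
    Tst Set.univ (fun x => (φ i (z - x) : ℂ)) := by
  refine ⟨?_, ?_, Set.subset_univ _⟩
  · exact Complex.ofRealCLM.contDiff.comp ((hφ.smooth i).comp (contDiff_const.sub contDiff_id))
  · refine HasCompactSupport.intro (isCompact_closedBall z 1) fun x hx => ?_
    rw [Metric.mem_closedBall, dist_eq_norm, not_le, norm_sub_rev] at hx
    rw [hφ.supp i (z - x) (lt_of_le_of_lt ?_ hx)]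
    · simp
    · rw [div_le_one (by positivity)]
      have : (0 : ℝ) ≤ i := Nat.cast_nonneg i
      linarith

theorem cv_zero {m : ℕ} {φ : ℕ → (Fin m → ℂ) → ℝ} (hφ : Mol φ) {K : Set (Fin m → ℂ)} {δ : ℝ}
    {i : ℕ} (hi : 1 / ((i : ℝ) + 1) ≤ δ) {f : (Fin m → ℂ) → ℂ} (hf : ∀ z, z ∉ K → f z = 0)
    {z : Fin m → ℂ} (hz : z ∉ Metric.cthickening δ K) : cv (φ i) f z = 0 := by
  unfold cv
  rw [← integral_zero (Fin m → ℂ) ℂ (μ := volume)]
  refine integral_congr_ae (ae_of_all _ fun x => ?_)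
  simp only
  by_cases hx : x ∈ K
  · have h1 : δ < ‖z - x‖ := by
      by_contra h
      refine hz (Metric.mem_cthickening_of_dist_le z x δ K hx ?_)
      rw [dist_eq_norm]
      exact not_lt.1 h
    rw [hφ.supp i _ (lt_of_le_of_lt hi h1)]
    simp
  · rw [hf x hx, mul_zero]

/-- the inequality for test forms extends to forms in `L²` with compact support -/
theorem mollA (hM1 : StMO1) (hM2 : StMO2) (hMEX : StMEX) {m : ℕ} {U K : Set (Fin m → ℂ)}
    (hU : IsOpen U) (hK : IsCompact K) (hKU : K ⊆ U)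
    {L : (Fin m → ℂ) → Matrix (Fin m) (Fin m) ℂ} (hL : ∀ j k, ContinuousOn (fun z => L z j k) U)
    (hL0 : ∀ z ∈ U, ∀ ξ, 0 ≤ hf (L z) ξ)
    {w : (Fin m → ℂ) → ℝ} (hw : ContinuousOn w U) (hw0 : ∀ z ∈ U, 0 ≤ w z)
    {g : (Fin m → ℂ) → ℝ} (hg : Measurable g)
    (hgb : ∀ K ⊆ U, IsCompact K → ∃ M, ∀ z ∈ K, |g z| ≤ M) {A : ℝ} (hA : 0 ≤ A)
    (H : ∀ η : Fin m → (Fin m → ℂ) → ℂ, (∀ j, Tst U (η j)) →
      ‖∫ z in U, (g z : ℂ) * ∑ j, dz j (η j) z‖ ^ 2 ≤
        A * ∫ z in U, hf (L z) (fun j => η j z) * w z)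
    {v : Fin m → (Fin m → ℂ) → ℂ} {b : (Fin m → ℂ) → ℂ}
    (hv : ∀ j, MemLp (v j) 2 volume) (hv0 : ∀ j z, z ∉ K → v j z = 0)
    (hb : MemLp b 2 volume) (hb0 : ∀ z, z ∉ K → b z = 0)
    (W : ∀ f, Tst Set.univ f → ∫ z, b z * f z = - ∑ j, ∫ z, v j z * dz j f z)
    {h : (Fin m → ℂ) → ℝ} (hh : IntegrableOn h U)
    (hvh : ∀ z ∈ U, hf (L z) (fun j => v j z) * w z ≤ h z) :
    ‖∫ z in U, (g z : ℂ) * b z‖ ^ 2 ≤ A * ∫ z in U, h z := by
  obtain ⟨φ, hφ⟩ := hMEX m
  have hUm : MeasurableSet U := hU.measurableSet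
  obtain ⟨δ, hδ, hδU⟩ := hK.exists_cthickening_subset_open hU hKU
  obtain ⟨K1, hK1⟩ : ∃ K1 : Set (Fin m → ℂ), K1 = Metric.cthickening δ K := ⟨_, rfl⟩
  have hK1c : IsCompact K1 := by rw [hK1]; exact hK.cthickening
  have hK1U : K1 ⊆ U := by rw [hK1]; exact hδU
  have hKK1 : K ⊆ K1 := by rw [hK1]; exact Metric.self_subset_cthickening K
  obtain ⟨Mg, hMg⟩ := hgb K1 hK1U hK1c
  have hev : ∀ᶠ i : ℕ in atTop, 1 / ((i : ℝ) + 1) ≤ δ := by
    have := tendsto_one_div_add_atTop_nhds_zero_nat (𝕜 := ℝ)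
    exact (this.eventually (gt_mem_nhds hδ)).mono fun i hi => le_of_lt hi
  have hcv0 : ∀ᶠ i : ℕ in atTop, ∀ f : (Fin m → ℂ) → ℂ, (∀ z, z ∉ K → f z = 0) →
      ∀ z, z ∉ K1 → cv (φ i) f z = 0 := by
    filter_upwards [hev] with i hi f hf z hz
    rw [hK1] at hz
    exact cv_zero hφ hi hf hz
  have hli : ∀ j, LocallyIntegrable (v j) volume := fun j =>
    (hv j).locallyIntegrable (by norm_num)
  have hcpt : ∀ j, HasCompactSupport (v j) := fun j =>
    HasCompactSupport.intro hK fun z hz => hv0 j z hz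
  -- derivatives of the mollified form
  have hdz : ∀ i z, ∑ j, dz j (cv (φ i) (v j)) z = cv (φ i) b z := by
    intro i z
    have h1 := W _ (tst_shift hφ i z)
    have h2 : cv (φ i) b z = ∫ x, b x * (φ i (z - x) : ℂ) := by
      unfold cv
      refine integral_congr_ae (ae_of_all _ fun x => ?_)
      simp only
      ring
    rw [h2, h1, ← Finset.sum_neg_distrib]
    refine Finset.sum_congr rfl fun j _ => ?_
    obtain ⟨_, _, h7⟩ := hM1 m φ hφ (v j) (hli j) i
    obtain ⟨h8, _, h9, _⟩ := h7 j z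
    rw [h8, ← integral_neg]
    refine integral_congr_ae (ae_of_all _ fun x => ?_)
    simp only
    rw [h9 x]
    ring
  -- the mollified form is a test form
  have htst : ∀ᶠ i : ℕ in atTop, ∀ j, Tst U (cv (φ i) (v j)) := by
    filter_upwards [hcv0] with i hi j
    obtain ⟨h1, h2, _⟩ := hM1 m φ hφ (v j) (hli j) i
    refine ⟨h1, h2 (hcpt j), ?_⟩
    refine (closure_minimal ?_ hK1c.isClosed).trans hK1U
    intro z hz
    by_contra h
    exact hz (hi (v j) (hv0 j) z h)
  -- left side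
  have hg2 : ∀ f : (Fin m → ℂ) → ℂ, MemLp f 2 volume → (∀ z, z ∉ K1 → f z = 0) →
      Integrable (fun z => (g z : ℂ) * f z) volume := by
    intro f hf hf0
    refine (memK hK1c (c := fun z => (g z : ℂ)) (f := f) (M := Mg) ?_ ?_ ?_ ?_ ?_ ?_).2
    · exact (Complex.measurable_ofReal.comp hg).aestronglyMeasurable
    · intro z hz
      rw [Complex.norm_real, Real.norm_eq_abs]
      exact hMg z hz
    · exact hf.1.restrict
    · exact ((memLp_two_iff_integrable_sq_norm hf.1).1 hf).integrableOn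
    · intro z _
      rfl
    · intro z hz
      rw [hf0 z hz, mul_zero]
  have hL1 : Tendsto (fun i => ∫ z in U, (g z : ℂ) * cv (φ i) b z) atTop
      (𝓝 (∫ z in U, (g z : ℂ) * b z)) := by
    obtain ⟨h1, h2⟩ := hM2 m φ hφ b hb
    have h3 := lim_g hK1c hK1U hMg (f := fun i z => cv (φ i) b z - b z)
      (fun i => (h1 i).sub hb) (by
        filter_upwards [hcv0] with i hi z hz
        rw [hi b hb0 z hz, hb0 z (fun h => hz (hKK1 h)), sub_zero]) h2
    have h4 : Tendsto (fun i => (∫ z in U, (g z : ℂ) * (cv (φ i) b z - b z)) +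
        ∫ z in U, (g z : ℂ) * b z) atTop (𝓝 (0 + ∫ z in U, (g z : ℂ) * b z)) :=
      h3.add_const _
    rw [zero_add] at h4
    refine h4.congr' ?_
    filter_upwards [hcv0] with i hi
    have i1 : Integrable (fun z => (g z : ℂ) * b z) volume :=
      hg2 b hb fun z hz => hb0 z (fun h => hz (hKK1 h))
    have i2 : Integrable (fun z => (g z : ℂ) * cv (φ i) b z) volume :=
      hg2 _ (h1 i) fun z hz => hi b hb0 z hz
    have e : ∀ z, (g z : ℂ) * (cv (φ i) b z - b z) =
        (g z : ℂ) * cv (φ i) b z - (g z : ℂ) * b z := fun z => mul_sub _ _ _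
    simp only [e]
    rw [integral_sub i2.integrableOn i1.integrableOn, sub_add_cancel]
  -- bounds on the compact set
  have hbL : ∀ j k, ∃ M : ℝ, ∀ z ∈ K1, ‖L z j k‖ ≤ M := fun j k =>
    hK1c.exists_bound_of_continuousOn ((hL j k).mono hK1U)
  choose ML hML using hbL
  obtain ⟨M1, hM1'⟩ : ∃ M1 : ℝ, ∀ j k, ∀ z ∈ K1, ‖L z j k‖ ≤ M1 := by
    refine ⟨∑ j, ∑ k, |ML j k|, fun j k z hz => ?_⟩
    refine (hML j k z hz).trans ((le_abs_self _).trans ?_)
    refine (Finset.single_le_sum (f := fun k => |ML j k|) (fun k _ => abs_nonneg _)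
      (Finset.mem_univ k)).trans ?_
    exact Finset.single_le_sum (f := fun j => ∑ k, |ML j k|)
      (fun j _ => Finset.sum_nonneg fun k _ => abs_nonneg _) (Finset.mem_univ j)
  obtain ⟨Mw, hMw⟩ := hK1c.exists_bound_of_continuousOn (hw.mono hK1U)
  obtain ⟨Cc, hCc⟩ : ∃ Cc : ℝ, Cc = |Mw| * (|M1| * m) := ⟨_, rfl⟩
  have hCc0 : 0 ≤ Cc := by rw [hCc]; positivity
  -- the integrals
  have iv : ∀ j, Integrable (fun z => ‖v j z‖ ^ 2) volume := fun j =>
    (memLp_two_iff_integrable_sq_norm (hv j).1).1 (hv j)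
  have id2 : ∀ i j, Integrable (fun z => ‖cv (φ i) (v j) z - v j z‖ ^ 2) volume := fun i j => by
    have h1 := ((hM2 m φ hφ (v j) (hv j)).1 i).sub (hv j)
    exact (memLp_two_iff_integrable_sq_norm h1.1).1 h1
  obtain ⟨S, hS⟩ : ∃ S : ℝ, S = ∑ j, ∫ z, ‖v j z‖ ^ 2 := ⟨_, rfl⟩
  obtain ⟨D, hD⟩ : ∃ D : ℕ → ℝ, D = fun i => ∑ j, ∫ z, ‖cv (φ i) (v j) z - v j z‖ ^ 2 := ⟨_, rfl⟩
  have hD0 : Tendsto D atTop (𝓝 0) := by
    rw [hD]
    have := tendsto_finset_sum (Finset.univ : Finset (Fin m))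
      (fun j _ => (hM2 m φ hφ (v j) (hv j)).2)
    simpa using this
  obtain ⟨X, hX⟩ : ∃ X : ℝ, X = ∫ z in U, h z := ⟨_, rfl⟩
  rw [← hX]
  have key : ∀ ε : ℝ, 0 < ε →
      ‖∫ z in U, (g z : ℂ) * b z‖ ^ 2 ≤ A * (X + Cc * (ε * S + (ε⁻¹ + 1) * 0)) := by
    intro ε hε
    have hlim : Tendsto (fun i => A * (X + Cc * (ε * S + (ε⁻¹ + 1) * D i))) atTop
        (𝓝 (A * (X + Cc * (ε * S + (ε⁻¹ + 1) * 0)))) :=
      ((((hD0.const_mul _).const_add _).const_mul _).const_add _).const_mul _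
    refine le_of_tendsto_of_tendsto (hL1.norm.pow 2) hlim ?_
    filter_upwards [hcv0, htst] with i hi hti
    have h1 := H _ hti
    simp only [hdz i] at h1
    refine h1.trans (mul_le_mul_of_nonneg_left ?_ hA)
    have iP : Integrable (fun z => Cc * (ε * ∑ j, ‖v j z‖ ^ 2 +
        (ε⁻¹ + 1) * ∑ j, ‖cv (φ i) (v j) z - v j z‖ ^ 2)) volume :=
      (((integrable_finsetSum _ fun j _ => iv j).const_mul _).add
        ((integrable_finsetSum _ fun j _ => id2 i j).const_mul _)).const_mul _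
    have hPn : ∀ z, 0 ≤ Cc * (ε * ∑ j, ‖v j z‖ ^ 2 +
        (ε⁻¹ + 1) * ∑ j, ‖cv (φ i) (v j) z - v j z‖ ^ 2) := by
      intro z
      have a1 : 0 ≤ ∑ j, ‖v j z‖ ^ 2 := Finset.sum_nonneg fun j _ => by positivity
      have a2 : 0 ≤ ∑ j, ‖cv (φ i) (v j) z - v j z‖ ^ 2 :=
        Finset.sum_nonneg fun j _ => by positivity
      positivity
    have hPI : ∫ z, Cc * (ε * ∑ j, ‖v j z‖ ^ 2 +
        (ε⁻¹ + 1) * ∑ j, ‖cv (φ i) (v j) z - v j z‖ ^ 2) = Cc * (ε * S + (ε⁻¹ + 1) * D i) := by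
      rw [integral_const_mul, integral_add ((integrable_finsetSum _ fun j _ => iv j).const_mul _)
        ((integrable_finsetSum _ fun j _ => id2 i j).const_mul _), integral_const_mul,
        integral_const_mul, integral_finsetSum _ fun j _ => iv j,
        integral_finsetSum _ fun j _ => id2 i j, hS, hD]
    have step : ∫ z in U, hf (L z) (fun j => cv (φ i) (v j) z) * w z ≤
        ∫ z in U, (h z + Cc * (ε * ∑ j, ‖v j z‖ ^ 2 +
        (ε⁻¹ + 1) * ∑ j, ‖cv (φ i) (v j) z - v j z‖ ^ 2)) := by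
      refine integral_mono_of_nonneg ?_ (hh.add iP.integrableOn) ?_
      · refine (ae_restrict_iff' hUm).2 (Eventually.of_forall fun z hz => ?_)
        exact mul_nonneg (hL0 z hz _) (hw0 z hz)
      · refine (ae_restrict_iff' hUm).2 (Eventually.of_forall fun z hz => ?_)
        simp only
        by_cases hzK : z ∈ K1
        · have h2 := hf_pert (fun j k => (hM1' j k z hzK).trans (le_abs_self M1))
            (fun j => cv (φ i) (v j) z) (fun j => v j z) hε
          have h3 := mul_le_mul_of_nonneg_right h2 (hw0 z hz)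
          refine h3.trans ?_
          have h4 : w z ≤ |Mw| := (le_abs_self _).trans ((hMw z hzK).trans (le_abs_self Mw))
          rw [add_mul]
          refine add_le_add (hvh z hz) ?_
          have a1 : 0 ≤ ∑ j, ‖v j z‖ ^ 2 := Finset.sum_nonneg fun j _ => by positivity
          have a2 : 0 ≤ ∑ j, ‖cv (φ i) (v j) z - v j z‖ ^ 2 :=
            Finset.sum_nonneg fun j _ => by positivity
          have h5 := mul_le_mul_of_nonneg_left h4 (show 0 ≤ |M1| * (m * (ε * ∑ j, ‖v j z‖ ^ 2 +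
            (ε⁻¹ + 1) * ∑ j, ‖cv (φ i) (v j) z - v j z‖ ^ 2)) by positivity)
          refine h5.trans (le_of_eq ?_)
          rw [hCc]
          ring
        · have e0 : (fun j => cv (φ i) (v j) z) = fun j => (0 : ℂ) * (0 : ℂ) := by
            funext j
            rw [hi (v j) (hv0 j) z hzK, mul_zero]
          have e1 : (fun j => v j z) = fun j => (0 : ℂ) * (0 : ℂ) := by
            funext j
            rw [hv0 j z (fun h => hzK (hKK1 h)), mul_zero]
          have h6 := hvh z hz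
          rw [e1, ← e0] at h6
          have := hPn z
          linarith
    refine step.trans ?_
    rw [integral_add hh iP.integrableOn, ← hX, ← hPI]
    exact add_le_add le_rfl (setIntegral_le_integral iP (ae_of_all _ hPn))
  have hlim2 : Tendsto (fun ε : ℝ => A * (X + Cc * (ε * S + (ε⁻¹ + 1) * 0))) (𝓝[>] 0)
      (𝓝 (A * (X + Cc * (0 * S + 0)))) := by
    have h1 : Tendsto (fun ε : ℝ => ε) (𝓝[>] 0) (𝓝 0) := tendsto_id.mono_left nhdsWithin_le_nhds
    have h2 : Tendsto (fun ε : ℝ => A * (X + Cc * (ε * S + 0))) (𝓝[>] 0)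
      (𝓝 (A * (X + Cc * (0 * S + 0)))) :=
      ((((h1.mul_const S).add_const 0).const_mul _).const_add _).const_mul _
    simpa only [mul_zero] using h2
  have h9 := ge_of_tendsto hlim2 (by
    filter_upwards [self_mem_nhdsWithin] with ε hε
    exact key ε hε)
  simpa using h9

theorem memU {m : ℕ} {U K : Set (Fin m → ℂ)} (hK : IsCompact K) (hKU : K ⊆ U)
    {c b F : (Fin m → ℂ) → ℂ} (hc : ContinuousOn c K) (hb : L2loc U b)
    (h1 : ∀ z ∈ K, F z = c z * b z) (h0 : ∀ z, z ∉ K → F z = 0) :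
    MemLp F 2 volume ∧ Integrable F volume :=
  memKc hK hc (hb.1.mono_measure (Measure.restrict_mono hKU le_rfl)) (hb.2 K hKU hK) h1 h0

theorem dz_zero {m : ℕ} (j : Fin m) (φ : (Fin m → ℂ) → ℂ) (z : Fin m → ℂ)
    (hz : z ∉ tsupport φ) : dz j φ z = 0 := by
  have h : fderiv ℝ φ z = 0 := by
    by_contra h
    exact hz (support_fderiv_subset ℝ h)
  simp [dz, h]

theorem dz_cont {m : ℕ} (j : Fin m) {φ : (Fin m → ℂ) → ℂ} (h : ContDiff ℝ ∞ φ) :
    Continuous (dz j φ) := by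
  have h1 : Continuous (fderiv ℝ φ) := h.continuous_fderiv (by simp)
  unfold dz
  fun_prop

theorem tsupport_cf {m : ℕ} (χ : (Fin m → ℂ) → ℝ) : tsupport (cf χ) = tsupport χ := by
  unfold tsupport
  congr 1
  ext z
  simp [cf]

/-- the weak equation of the cut off form -/
theorem weakA (hCAL : StCAL) {m : ℕ} {U : Set (Fin m → ℂ)} {u : (Fin m → ℂ) → ℝ}
    (huc : ContinuousOn u U) {J : (Fin m → ℂ) → ℂ} (hJ : Differentiable ℂ J)
    (hJs : ContDiff ℝ ∞ J)
    {β : Fin m → (Fin m → ℂ) → ℂ} {a : (Fin m → ℂ) → ℂ} (hβ : ∀ j, L2loc U (β j))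
    (ha : L2loc U a) (hWT : WT U u β a) {χ : (Fin m → ℂ) → ℝ} (hχ : ContDiff ℝ ∞ χ)
    (hχc : HasCompactSupport χ) (hχU : tsupport χ ⊆ U) (f : (Fin m → ℂ) → ℂ)
    (hf : Tst Set.univ f) :
    ∫ z, ((∑ j, β j z * dz j (cf χ) z - cf χ z * a z) *
        (star (J z) * (Real.exp (-u z) : ℂ))) * f z =
      - ∑ j, ∫ z, (cf χ z * β j z * (star (J z) * (Real.exp (-u z) : ℂ))) * dz j f z := by
  obtain ⟨K, hK⟩ : ∃ K, K = tsupport χ := ⟨_, rfl⟩
  have hKc : IsCompact K := by rw [hK]; exact hχc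
  have hKU : K ⊆ U := by rw [hK]; exact hχU
  have hcs : ContDiff ℝ ∞ (cf χ) := Complex.ofRealCLM.contDiff.comp hχ
  have hχ0 : ∀ z, z ∉ K → cf χ z = 0 := by
    intro z hz
    rw [hK] at hz
    have := image_eq_zero_of_notMem_tsupport hz
    simp [cf, this]
  have hdχ0 : ∀ j z, z ∉ K → dz j (cf χ) z = 0 := by
    intro j z hz
    refine dz_zero j _ z ?_
    rw [tsupport_cf, ← hK]
    exact hz
  have hfst : ContDiff ℝ ∞ (fun z => star (f z)) := by
    have h1 : ContDiff ℝ ∞ (fun w : ℂ => star w) := Complex.conjCLE.contDiff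
    exact h1.comp hf.1
  have hJst : ContDiff ℝ ∞ (fun z => star (J z)) := by
    have h1 : ContDiff ℝ ∞ (fun w : ℂ => star w) := Complex.conjCLE.contDiff
    exact h1.comp hJs
  have hφs : ContDiff ℝ ∞ (fun z => cf χ z * (J z * star (f z))) := hcs.mul (hJs.mul hfst)
  have hφ : Tst U (fun z => cf χ z * (J z * star (f z))) := by
    have hs : Function.support (fun z => cf χ z * (J z * star (f z))) ⊆ tsupport χ := by
      intro z hz
      by_contra h
      apply hz
      rw [← hK] at h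
      simp only
      rw [hχ0 z h, zero_mul]
    exact ⟨hφs, HasCompactSupport.of_support_subset_isCompact hχc hs,
      (closure_minimal hs (isClosed_tsupport _)).trans hχU⟩
  have hW := hWT _ hφ
  have hEc : ContinuousOn (fun z => star (J z) * (Real.exp (-u z) : ℂ)) K := by
    apply ContinuousOn.mul
    · exact hJst.continuous.continuousOn
    · exact Complex.continuous_ofReal.comp_continuousOn
        (Real.continuous_exp.comp_continuousOn (huc.mono hKU).neg)
  have hstχ : ∀ z, star (cf χ z) = cf χ z := fun z => Complex.conj_ofReal _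
  -- the left side
  have e1 : inn U u a (fun z => cf χ z * (J z * star (f z))) =
      ∫ z, (cf χ z * a z * (star (J z) * (Real.exp (-u z) : ℂ))) * f z := by
    unfold inn
    rw [setIntegral_eq_integral_of_forall_compl_eq_zero]
    · refine integral_congr_ae (ae_of_all _ fun z => ?_)
      simp only [star_mul', star_star, hstχ]
      ring
    · intro z hz
      simp only
      rw [hχ0 z (fun h => hz (hKU h))]
      simp
  -- derivative
  have e3 : ∀ j z, star (db j (fun z => cf χ z * (J z * star (f z))) z) =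
      dz j (cf χ) z * (star (J z) * f z) + cf χ z * (star (J z) * dz j f z) := by
    intro j z
    have d1 : DifferentiableAt ℝ (cf χ) z := (hcs.differentiable (by simp)) z
    have d2 : DifferentiableAt ℝ (fun z => star (J z)) z := (hJst.differentiable (by simp)) z
    have d2' : DifferentiableAt ℝ J z := (hJs.differentiable (by simp)) z
    have d3 : DifferentiableAt ℝ f z := (hf.1.differentiable (by simp)) z
    have d4 : DifferentiableAt ℝ (fun z => cf χ z * (J z * star (f z))) z :=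
      (hφs.differentiable (by simp)) z
    have c1 := ((hCAL m j j (fun z => cf χ z * (J z * star (f z))) f z).1 d4 d3).2.2.2.2.1
    rw [← c1]
    have e4 : (fun z => star (cf χ z * (J z * star (f z)))) =
        fun z => cf χ z * ((fun z => star (J z) * f z) z) := by
      funext z
      simp only [star_mul', star_star, hstχ]
    rw [e4]
    have c2 := ((hCAL m j j (cf χ) (fun z => star (J z) * f z) z).1 d1 (d2.mul d3)).2.2.1
    rw [c2]
    have c3 := ((hCAL m j j (fun z => star (J z)) f z).1 d2 d3).2.2.1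
    rw [c3]
    have c4 := ((hCAL m j j J f z).1 d2' d3).2.2.2.2.1
    rw [c4]
    have c5 := ((hCAL m j j J f z).2.2.1 (hJ z)).1
    rw [c5]
    simp
  have e2 : ∀ j, inn U u (β j) (db j (fun z => cf χ z * (J z * star (f z)))) =
      (∫ z, (β j z * dz j (cf χ) z * (star (J z) * (Real.exp (-u z) : ℂ))) * f z) +
      ∫ z, (cf χ z * β j z * (star (J z) * (Real.exp (-u z) : ℂ))) * dz j f z := by
    intro j
    have i1 : Integrable (fun z => (β j z * dz j (cf χ) z *
        (star (J z) * (Real.exp (-u z) : ℂ))) * f z) volume := by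
      refine (memU hKc hKU (c := fun z => dz j (cf χ) z *
        (star (J z) * (Real.exp (-u z) : ℂ)) * f z) ?_ (hβ j) ?_ ?_).2
      · exact (((dz_cont j hcs).continuousOn).mul hEc).mul hf.1.continuous.continuousOn
      · intro z _
        ring
      · intro z hz
        rw [hdχ0 j z hz]
        simp
    have i2 : Integrable (fun z => (cf χ z * β j z *
        (star (J z) * (Real.exp (-u z) : ℂ))) * dz j f z) volume := by
      refine (memU hKc hKU (c := fun z => cf χ z *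
        (star (J z) * (Real.exp (-u z) : ℂ)) * dz j f z) ?_ (hβ j) ?_ ?_).2
      · exact ((hcs.continuous.continuousOn).mul hEc).mul (dz_cont j hf.1).continuousOn
      · intro z _
        ring
      · intro z hz
        rw [hχ0 z hz]
        simp
    unfold inn
    rw [setIntegral_eq_integral_of_forall_compl_eq_zero, ← integral_add i1 i2]
    · refine integral_congr_ae (ae_of_all _ fun z => ?_)
      simp only
      rw [e3 j z]
      ring
    · intro z hz
      rw [e3 j z, hχ0 z (fun h => hz (hKU h)), hdχ0 j z (fun h => hz (hKU h))]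
      simp
  rw [e1] at hW
  simp only [e2] at hW
  rw [Finset.sum_add_distrib] at hW
  -- expand the left side of the goal
  have i1 : ∀ j, Integrable (fun z => (β j z * dz j (cf χ) z *
      (star (J z) * (Real.exp (-u z) : ℂ))) * f z) volume := by
    intro j
    refine (memU hKc hKU (c := fun z => dz j (cf χ) z *
      (star (J z) * (Real.exp (-u z) : ℂ)) * f z) ?_ (hβ j) ?_ ?_).2
    · exact (((dz_cont j hcs).continuousOn).mul hEc).mul hf.1.continuous.continuousOn
    · intro z _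
      ring
    · intro z hz
      rw [hdχ0 j z hz]
      simp
  have i3 : Integrable (fun z => (cf χ z * a z *
      (star (J z) * (Real.exp (-u z) : ℂ))) * f z) volume := by
    refine (memU hKc hKU (c := fun z => cf χ z *
      (star (J z) * (Real.exp (-u z) : ℂ)) * f z) ?_ ha ?_ ?_).2
    · exact ((hcs.continuous.continuousOn).mul hEc).mul hf.1.continuous.continuousOn
    · intro z _
      ring
    · intro z hz
      rw [hχ0 z hz]
      simp
  have e5 : ∀ z, ((∑ j, β j z * dz j (cf χ) z - cf χ z * a z) *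
        (star (J z) * (Real.exp (-u z) : ℂ))) * f z =
      (∑ j, (β j z * dz j (cf χ) z * (star (J z) * (Real.exp (-u z) : ℂ))) * f z) -
        (cf χ z * a z * (star (J z) * (Real.exp (-u z) : ℂ))) * f z := by
    intro z
    rw [sub_mul, sub_mul, Finset.sum_mul, Finset.sum_mul]
  simp only [e5]
  rw [integral_sub (integrable_finsetSum _ fun j _ => i1 j) i3,
    integral_finsetSum _ fun j _ => i1 j, hW]
  ring

/-- the inequality for the cut off form -/
theorem stepA (hCAL : StCAL) (hM1 : StMO1) (hM2 : StMO2) (hMEX : StMEX) {m : ℕ}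
    {U : Set (Fin m → ℂ)} (hU : IsOpen U) {u : (Fin m → ℂ) → ℝ}
    (hus : ContDiffOn ℝ ∞ u U) {J : (Fin m → ℂ) → ℂ} (hJ : Differentiable ℂ J)
    (hJs : ContDiff ℝ ∞ J) (hJ0 : ∀ z ∈ U, J z ≠ 0)
    (hpd : ∀ z ∈ U, ∀ ξ, 0 ≤ hf (hes u z) ξ)
    {g : (Fin m → ℂ) → ℝ} (hg : Measurable g)
    (hgb : ∀ K ⊆ U, IsCompact K → ∃ M, ∀ z ∈ K, |g z| ≤ M) {A : ℝ} (hA : 0 ≤ A)
    (H : ∀ η : Fin m → (Fin m → ℂ) → ℂ, (∀ j, Tst U (η j)) →
      ‖∫ z in U, (g z : ℂ) * ∑ j, dz j (η j) z‖ ^ 2 ≤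
        A * ∫ z in U, hf (hes u z) (fun j => η j z) * (Real.exp (u z) / ‖J z‖ ^ 2))
    {β : Fin m → (Fin m → ℂ) → ℂ} {a : (Fin m → ℂ) → ℂ} (hβ : ∀ j, L2loc U (β j))
    (ha : L2loc U a) (hWT : WT U u β a)
    (hX : IntegrableOn (fun z => hf (hes u z) (fun j => β j z) * Real.exp (-u z)) U)
    {χ : (Fin m → ℂ) → ℝ} (hχ : ContDiff ℝ ∞ χ)
    (hχc : HasCompactSupport χ) (hχU : tsupport χ ⊆ U) (h01 : ∀ z, 0 ≤ χ z ∧ χ z ≤ 1) :
    ‖(∫ z in U, (g z : ℂ) * ((∑ j, β j z * dz j (cf χ) z) *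
        (star (J z) * (Real.exp (-u z) : ℂ)))) -
      ∫ z in U, (g z : ℂ) * (cf χ z * a z * (star (J z) * (Real.exp (-u z) : ℂ)))‖ ^ 2 ≤
      A * ∫ z in U, hf (hes u z) (fun j => β j z) * Real.exp (-u z) := by
  obtain ⟨K, hK⟩ : ∃ K, K = tsupport χ := ⟨_, rfl⟩
  have huc : ContinuousOn u U := hus.continuousOn
  have hKc : IsCompact K := by rw [hK]; exact hχc
  have hKU : K ⊆ U := by rw [hK]; exact hχU
  have hcs : ContDiff ℝ ∞ (cf χ) := Complex.ofRealCLM.contDiff.comp hχ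
  have hχ0 : ∀ z, z ∉ K → cf χ z = 0 := by
    intro z hz
    rw [hK] at hz
    have := image_eq_zero_of_notMem_tsupport hz
    simp [cf, this]
  have hdχ0 : ∀ j z, z ∉ K → dz j (cf χ) z = 0 := by
    intro j z hz
    refine dz_zero j _ z ?_
    rw [tsupport_cf, ← hK]
    exact hz
  have hEc : ContinuousOn (fun z => star (J z) * (Real.exp (-u z) : ℂ)) K := by
    apply ContinuousOn.mul
    · exact (continuous_star.comp hJs.continuous).continuousOn
    · exact Complex.continuous_ofReal.comp_continuousOn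
        (Real.continuous_exp.comp_continuousOn (huc.mono hKU).neg)
  -- the pieces
  have pP : ∀ j, MemLp (fun z => β j z * dz j (cf χ) z *
      (star (J z) * (Real.exp (-u z) : ℂ))) 2 volume := by
    intro j
    refine (memU hKc hKU (c := fun z => dz j (cf χ) z *
      (star (J z) * (Real.exp (-u z) : ℂ))) ?_ (hβ j) ?_ ?_).1
    · exact ((dz_cont j hcs).continuousOn).mul hEc
    · intro z _
      ring
    · intro z hz
      rw [hdχ0 j z hz]
      simp
  have pQ : ∀ j, MemLp (fun z => cf χ z * β j z *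
      (star (J z) * (Real.exp (-u z) : ℂ))) 2 volume := by
    intro j
    refine (memU hKc hKU (c := fun z => cf χ z *
      (star (J z) * (Real.exp (-u z) : ℂ))) ?_ (hβ j) ?_ ?_).1
    · exact (hcs.continuous.continuousOn).mul hEc
    · intro z _
      ring
    · intro z hz
      rw [hχ0 z hz]
      simp
  have pR : MemLp (fun z => cf χ z * a z *
      (star (J z) * (Real.exp (-u z) : ℂ))) 2 volume := by
    refine (memU hKc hKU (c := fun z => cf χ z *
      (star (J z) * (Real.exp (-u z) : ℂ))) ?_ ha ?_ ?_).1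
    · exact (hcs.continuous.continuousOn).mul hEc
    · intro z _
      ring
    · intro z hz
      rw [hχ0 z hz]
      simp
  have eP : (fun z => (∑ j, β j z * dz j (cf χ) z) * (star (J z) * (Real.exp (-u z) : ℂ))) =
      fun z => ∑ j, β j z * dz j (cf χ) z * (star (J z) * (Real.exp (-u z) : ℂ)) := by
    funext z
    rw [Finset.sum_mul]
  have pPs : MemLp (fun z => (∑ j, β j z * dz j (cf χ) z) *
      (star (J z) * (Real.exp (-u z) : ℂ))) 2 volume := by
    rw [eP]
    exact memLp_finsetSum _ fun j _ => pP j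
  obtain ⟨Mg, hMg⟩ := hgb K hKU hKc
  have hg2 : ∀ f : (Fin m → ℂ) → ℂ, MemLp f 2 volume → (∀ z, z ∉ K → f z = 0) →
      Integrable (fun z => (g z : ℂ) * f z) volume := by
    intro f hf hf0
    refine (memK hKc (c := fun z => (g z : ℂ)) (f := f) (M := Mg) ?_ ?_ ?_ ?_ ?_ ?_).2
    · exact (Complex.measurable_ofReal.comp hg).aestronglyMeasurable
    · intro z hz
      rw [Complex.norm_real, Real.norm_eq_abs]
      exact hMg z hz
    · exact hf.1.restrict
    · exact ((memLp_two_iff_integrable_sq_norm hf.1).1 hf).integrableOn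
    · intro z _
      rfl
    · intro z hz
      rw [hf0 z hz, mul_zero]
  have i1 : Integrable (fun z => (g z : ℂ) * ((∑ j, β j z * dz j (cf χ) z) *
      (star (J z) * (Real.exp (-u z) : ℂ)))) volume := by
    refine hg2 _ pPs fun z hz => ?_
    rw [Finset.sum_eq_zero fun j _ => by rw [hdχ0 j z hz, mul_zero], zero_mul]
  have i2 : Integrable (fun z => (g z : ℂ) * (cf χ z * a z *
      (star (J z) * (Real.exp (-u z) : ℂ)))) volume := by
    refine hg2 _ pR fun z hz => ?_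
    rw [hχ0 z hz]
    simp
  rw [← integral_sub i1.integrableOn i2.integrableOn]
  have e0 : ∀ z, (g z : ℂ) * ((∑ j, β j z * dz j (cf χ) z) *
      (star (J z) * (Real.exp (-u z) : ℂ))) -
      (g z : ℂ) * (cf χ z * a z * (star (J z) * (Real.exp (-u z) : ℂ))) =
      (g z : ℂ) * ((∑ j, β j z * dz j (cf χ) z - cf χ z * a z) *
        (star (J z) * (Real.exp (-u z) : ℂ))) := by
    intro z
    ring
  simp only [e0]
  have pb : MemLp (fun z => (∑ j, β j z * dz j (cf χ) z - cf χ z * a z) *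
        (star (J z) * (Real.exp (-u z) : ℂ))) 2 volume := by
    have := pPs.sub pR
    refine (memLp_congr_ae (ae_of_all _ fun z => ?_)).1 this
    simp only [Pi.sub_apply]
    ring
  refine mollA hM1 hM2 hMEX hU hKc hKU (L := hes u)
    (w := fun z => Real.exp (u z) / ‖J z‖ ^ 2)
    (v := fun j z => cf χ z * β j z * (star (J z) * (Real.exp (-u z) : ℂ)))
    ?_ hpd ?_ ?_ hg hgb hA H pQ ?_ pb ?_ ?_ hX ?_
  · intro j k
    have hcu : ContDiffOn ℝ ∞ (cf u) U := Complex.ofRealCLM.contDiff.comp_contDiffOn hus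
    have h1 := ((hCAL m k k (cf u) (cf u) 0).2.2.2.2 U hU hcu).2
    have h2 := ((hCAL m j j (db k (cf u)) (cf u) 0).2.2.2.2 U hU h1).1
    exact h2.continuousOn
  · refine ContinuousOn.div (Real.continuous_exp.comp_continuousOn huc)
      ((hJs.continuous.norm.pow 2).continuousOn) fun z hz => ?_
    exact pow_ne_zero 2 (norm_ne_zero_iff.2 (hJ0 z hz))
  · intro z hz
    positivity
  · intro j z hz
    rw [hχ0 z hz]
    simp
  · intro z hz
    rw [hχ0 z hz, Finset.sum_eq_zero fun j _ => by rw [hdχ0 j z hz, mul_zero]]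
    simp
  · intro f hf
    exact weakA hCAL huc hJ hJs hβ ha hWT hχ hχc hχU f hf
  · intro z hz
    have e6 : (fun j => cf χ z * β j z * (star (J z) * (Real.exp (-u z) : ℂ))) =
        fun j => (cf χ z * (star (J z) * (Real.exp (-u z) : ℂ))) * β j z := by
      funext j
      ring
    rw [e6, hf_mul]
    have hh := hpd z hz (fun j => β j z)
    obtain ⟨hb, hhb⟩ : ∃ hb : ℝ, hb = hf (hes u z) (fun j => β j z) := ⟨_, rfl⟩
    rw [← hhb] at hh ⊢
    have hJn : 0 < ‖J z‖ := norm_pos_iff.2 (hJ0 z hz)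
    have n1 : ‖cf χ z * (star (J z) * (Real.exp (-u z) : ℂ))‖ = χ z * (‖J z‖ * Real.exp (-u z)) := by
      rw [norm_mul, norm_mul, norm_star, Complex.norm_real, Real.norm_of_nonneg
        (Real.exp_pos _).le]
      simp only [cf]
      rw [Complex.norm_real, Real.norm_of_nonneg (h01 z).1]
    rw [n1]
    have e7 : (χ z * (‖J z‖ * Real.exp (-u z))) ^ 2 * hb * (Real.exp (u z) / ‖J z‖ ^ 2) =
        χ z ^ 2 * (hb * Real.exp (-u z)) * (Real.exp (-u z) * Real.exp (u z)) := by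
      field_simp
    rw [e7, ← Real.exp_add, neg_add_cancel, Real.exp_zero, mul_one]
    have h2 : χ z ^ 2 ≤ 1 := pow_le_one₀ (h01 z).1 (h01 z).2
    have h3 : 0 ≤ hb * Real.exp (-u z) := mul_nonneg hh (Real.exp_pos _).le
    calc χ z ^ 2 * (hb * Real.exp (-u z)) ≤ 1 * (hb * Real.exp (-u z)) :=
          mul_le_mul_of_nonneg_right h2 h3
      _ = _ := one_mul _

theorem amgm {x κ h t : ℝ} (hx : 0 ≤ x) (hκ : 0 ≤ κ) (hh : 0 ≤ h) (ht : 0 < t)
    (hxx : x ^ 2 ≤ κ * h) : x ≤ (t * κ + h / t) / 2 := by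
  have e : κ * h = (t * κ) * (h / t) := by field_simp
  have h1 : x ^ 2 ≤ ((t * κ + h / t) / 2) ^ 2 := by
    nlinarith [sq_nonneg (t * κ - h / t)]
  have h2 : 0 ≤ (t * κ + h / t) / 2 := by positivity
  exact (pow_le_pow_iff_left₀ hx h2 two_ne_zero).1 h1

theorem ev_diff {m : ℕ} (P : MvPolynomial (Fin m) ℂ) : Differentiable ℂ (fun z => ev P z) := by
  induction P using MvPolynomial.induction_on with
  | C a =>
    simp only [ev, MvPolynomial.eval_C]
    exact differentiable_const _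
  | add p q hp hq =>
    simp only [ev, map_add] at hp hq ⊢
    exact hp.add hq
  | mul_X p i hp =>
    simp only [ev, map_mul, MvPolynomial.eval_X] at hp ⊢
    exact hp.mul (differentiable_apply i)

theorem ev_smooth {m : ℕ} (P : MvPolynomial (Fin m) ℂ) : ContDiff ℝ ∞ (fun z => ev P z) := by
  induction P using MvPolynomial.induction_on with
  | C a =>
    simp only [ev, MvPolynomial.eval_C]
    exact contDiff_const
  | add p q hp hq =>
    simp only [ev, map_add] at hp hq ⊢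
    exact hp.add hq
  | mul_X p i hp =>
    simp only [ev, map_mul, MvPolynomial.eval_X] at hp ⊢
    exact hp.mul (contDiff_apply ℝ ℂ i)

end EPG

open EPG in
theorem hEPG (hCUT : StCUT) (hMEX : StMEX) (hM1 : StMO1) (hM2 : StMO2) (hMOM : StMOM)
    (hCAL : StCAL) : StEPG := by
  intro C hC g B A hg hgB hA H β a hβ ha hWT hhf
  have hU : IsOpen C.U := isOpen_compl_singleton.preimage (MvPolynomial.continuous_eval C.Δ)
  have hUm : MeasurableSet C.U := hU.measurableSet
  have huc : ContinuousOn C.u C.U := hC.usm.continuousOn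
  have hpd : ∀ z ∈ C.U, ∀ ξ, 0 ≤ hf (hes C.u z) ξ := by
    intro z hz ξ
    by_cases h : ξ = 0
    · subst h
      simp [hf]
    · exact ((hC.uhes z hz).1.2 ξ h).le
  have hJs : ContDiff ℝ ∞ (fun z => ev C.J z) := ev_smooth C.J
  have hJd : Differentiable ℂ (fun z => ev C.J z) := ev_diff C.J
  have haL : L2loc C.U a := by
    refine ⟨ha.1, fun K hKU hK => ?_⟩
    obtain ⟨M, hM⟩ := hK.exists_bound_of_continuousOn
      (Real.continuous_exp.comp_continuousOn (huc.mono hKU))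
    have h1 : IntegrableOn (fun z => ‖a z‖ ^ 2 * Real.exp (-C.u z)) K := ha.2.mono_set hKU
    refine Integrable.mono' (h1.const_mul M) ?_ ?_
    · exact ((ha.1.mono_measure (Measure.restrict_mono hKU le_rfl)).norm.pow 2)
    · refine (ae_restrict_iff' hK.measurableSet).2 (Eventually.of_forall fun z hz => ?_)
      have h2 := hM z hz
      rw [Function.comp_apply, Real.norm_of_nonneg (Real.exp_pos _).le] at h2
      rw [Real.norm_of_nonneg (by positivity)]
      have e : ‖a z‖ ^ 2 = Real.exp (C.u z) * (‖a z‖ ^ 2 * Real.exp (-C.u z)) := by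
        rw [Real.exp_neg]
        field_simp
      calc ‖a z‖ ^ 2 = Real.exp (C.u z) * (‖a z‖ ^ 2 * Real.exp (-C.u z)) := e
        _ ≤ M * (‖a z‖ ^ 2 * Real.exp (-C.u z)) :=
          mul_le_mul_of_nonneg_right h2 (by positivity)
  have hgb : ∀ K ⊆ C.U, IsCompact K → ∃ M, ∀ z ∈ K, |g z| ≤ M := by
    intro K hKU hK
    obtain ⟨M, hM⟩ := hK.exists_bound_of_continuousOn (huc.mono hKU)
    refine ⟨|B| * M, fun z hz => ?_⟩
    have h1 := hgB z (hKU hz)
    have h2 := hM z hz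
    calc |g z| ≤ B * C.u z := h1
      _ ≤ |B * C.u z| := le_abs_self _
      _ = |B| * ‖C.u z‖ := by rw [abs_mul, Real.norm_eq_abs]
      _ ≤ |B| * M := mul_le_mul_of_nonneg_left h2 (abs_nonneg _)
  obtain ⟨χ, κ, hχ, hχ1, -, hκ, hκI⟩ := hCUT C hC
  obtain ⟨hI, hT⟩ := hκI 2
  obtain ⟨a0, b0, ha0, hub⟩ := hC.ubd
  have hsz : ∀ z, 0 ≤ C.sz z := fun z => Finset.sum_nonneg fun i _ => norm_nonneg _
  obtain ⟨X, hX⟩ : ∃ X : ℝ, X = ∫ z in C.U, hf (hes C.u z) (fun j => β j z) *
    Real.exp (-C.u z) := ⟨_, rfl⟩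
  have hX0 : 0 ≤ X := by
    rw [hX]
    exact setIntegral_nonneg hUm fun z hz => mul_nonneg (hpd z hz _) (Real.exp_pos _).le
  rw [← hX]
  obtain ⟨T, hTd⟩ : ∃ T : ℕ → ℂ, T = fun i => ∫ z in C.U, (g z : ℂ) *
    ((∑ j, β j z * dz j (cf (χ i)) z) * (star (ev C.J z) * (Real.exp (-C.u z) : ℂ))) := ⟨_, rfl⟩
  obtain ⟨S, hSd⟩ : ∃ S : ℕ → ℂ, S = fun i => ∫ z in C.U, (g z : ℂ) *
    (cf (χ i) z * a z * (star (ev C.J z) * (Real.exp (-C.u z) : ℂ))) := ⟨_, rfl⟩
  have hTS : ∀ i, ‖T i - S i‖ ^ 2 ≤ A * X := by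
    intro i
    have := stepA hCAL hM1 hM2 hMEX hU hC.usm hJd hJs hC.J0 hpd hg hgb hA H hβ haL hWT hhf
      (hχ i).1 (hχ i).2.1 (hχ i).2.2.1 (hχ i).2.2.2
    rw [hTd, hSd, hX]
    exact this
  have hexp : ∀ z, ‖(Real.exp (-C.u z) : ℂ)‖ = Real.exp (-C.u z) := fun z => by
    rw [Complex.norm_real, Real.norm_of_nonneg (Real.exp_pos _).le]
  -- the first term is small
  have hTb : ∀ (i : ℕ) (s : ℝ), 0 < s → ‖T i‖ ≤ (s * (B ^ 2 * b0 ^ 2 *
      ∫ z in C.U, κ i z * (1 + C.sz z ^ 2) * Real.exp (-C.u z) * ‖ev C.J z‖ ^ 2) + X / s) / 2 := by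
    intro i s hs
    have j1 : IntegrableOn (fun z => s * (B ^ 2 * b0 ^ 2 *
        (κ i z * (1 + C.sz z ^ 2) * Real.exp (-C.u z) * ‖ev C.J z‖ ^ 2))) C.U :=
      ((hI i).const_mul _).const_mul _
    have j2 : IntegrableOn (fun z => hf (hes C.u z) (fun j => β j z) * Real.exp (-C.u z) / s)
        C.U := hhf.div_const s
    have j3 : IntegrableOn (fun z => (s * (B ^ 2 * b0 ^ 2 *
        (κ i z * (1 + C.sz z ^ 2) * Real.exp (-C.u z) * ‖ev C.J z‖ ^ 2)) +
        hf (hes C.u z) (fun j => β j z) * Real.exp (-C.u z) / s) / 2) C.U :=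
      (j1.add j2).div_const 2
    have e1 : ∫ z in C.U, (s * (B ^ 2 * b0 ^ 2 *
        (κ i z * (1 + C.sz z ^ 2) * Real.exp (-C.u z) * ‖ev C.J z‖ ^ 2)) +
        hf (hes C.u z) (fun j => β j z) * Real.exp (-C.u z) / s) / 2 = (s * (B ^ 2 * b0 ^ 2 *
        ∫ z in C.U, κ i z * (1 + C.sz z ^ 2) * Real.exp (-C.u z) * ‖ev C.J z‖ ^ 2) + X / s) / 2 := by
      rw [integral_div, integral_add j1 j2, integral_const_mul, integral_const_mul, integral_div, hX]
    rw [← e1, hTd]
    refine norm_integral_le_of_norm_le j3 ?_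
    refine (ae_restrict_iff' hUm).2 (Eventually.of_forall fun z hz => ?_)
    have hdχ : DifferentiableAt ℝ (cf (χ i)) z :=
      ((Complex.ofRealCLM.contDiff.comp (hχ i).1).differentiable (by simp)) z
    have hdz : ∀ j, dz j (cf (χ i)) z = star (db j (cf (χ i)) z) := by
      intro j
      have h1 := ((hCAL C.m j j (cf (χ i)) (cf (χ i)) z).1 hdχ hdχ).2.2.2.2.1
      rw [← h1]
      congr 1
      funext y
      exact (Complex.conj_ofReal _).symm
    have e2 : ∑ j, β j z * dz j (cf (χ i)) z = star (∑ j, db j (cf (χ i)) z * star (β j z)) := by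
      rw [star_sum]
      refine Finset.sum_congr rfl fun j _ => ?_
      rw [hdz j, star_mul', star_star, mul_comm]
    have hXb := (hκ i z hz).2 (fun j => β j z)
    have hκ0 := (hκ i z hz).1
    have hh0 := hpd z hz (fun j => β j z)
    rw [e2, norm_mul, norm_mul, norm_mul, norm_star, norm_star, hexp, Complex.norm_real,
      Real.norm_eq_abs]
    obtain ⟨Y, hY⟩ : ∃ Y : ℂ, Y = ∑ j, db j (cf (χ i)) z * star (β j z) := ⟨_, rfl⟩
    obtain ⟨h, hh⟩ : ∃ h : ℝ, h = hf (hes C.u z) (fun j => β j z) := ⟨_, rfl⟩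
    rw [← hY, ← hh] at hXb
    rw [← hh] at hh0
    rw [← hY, ← hh]
    have hu0 : 0 ≤ C.u z := le_trans (mul_nonneg ha0.le (hsz z)) (hub z hz).1
    have hu2 : C.u z ^ 2 ≤ b0 ^ 2 * (1 + C.sz z ^ 2) := by
      have h1 : C.u z ^ 2 ≤ (b0 * C.sz z) ^ 2 := pow_le_pow_left₀ hu0 (hub z hz).2 2
      nlinarith [sq_nonneg b0]
    have hg2 : |g z| ^ 2 ≤ B ^ 2 * (b0 ^ 2 * (1 + C.sz z ^ 2)) := by
      have h1 : |g z| ^ 2 ≤ (B * C.u z) ^ 2 := pow_le_pow_left₀ (abs_nonneg _) (hgB z hz) 2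
      rw [mul_pow] at h1
      exact h1.trans (mul_le_mul_of_nonneg_left hu2 (sq_nonneg B))
    have hs2 := hsz z
    have hk : |g z| * (‖Y‖ * ‖ev C.J z‖) ≤
        (s * (B ^ 2 * b0 ^ 2 * (κ i z * (1 + C.sz z ^ 2) * ‖ev C.J z‖ ^ 2)) + h / s) / 2 := by
      refine amgm (by positivity) (by positivity) hh0 hs ?_
      calc (|g z| * (‖Y‖ * ‖ev C.J z‖)) ^ 2 = |g z| ^ 2 * (‖Y‖ ^ 2 * ‖ev C.J z‖ ^ 2) := by ring
        _ ≤ (B ^ 2 * (b0 ^ 2 * (1 + C.sz z ^ 2))) * ((κ i z * h) * ‖ev C.J z‖ ^ 2) :=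
          mul_le_mul hg2 (mul_le_mul_of_nonneg_right hXb (by positivity)) (by positivity)
            (by positivity)
        _ = _ := by ring
    have hfin := mul_le_mul_of_nonneg_right hk (Real.exp_pos (-C.u z)).le
    refine (le_of_eq ?_).trans (hfin.trans (le_of_eq ?_))
    · ring
    · ring
  -- the limit of the second term
  have hSlim : Tendsto S atTop (𝓝 (inn C.U C.u a (fun z => (g z : ℂ) * ev C.J z))) := by
    rw [hSd]
    unfold inn
    have hq := ((hMOM C hC).1 2).1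
    have hbd : IntegrableOn (fun z => (‖a z‖ ^ 2 * Real.exp (-C.u z) +
        B ^ 2 * (C.u z ^ 2 * Real.exp (-C.u z) * ‖ev C.J z‖ ^ 2)) / 2) C.U :=
      (ha.2.add (hq.const_mul (B ^ 2))).div_const 2
    have hem : AEStronglyMeasurable (fun z => (Real.exp (-C.u z) : ℂ)) (volume.restrict C.U) :=
      (Complex.continuous_ofReal.comp_continuousOn
        (Real.continuous_exp.comp_continuousOn huc.neg)).aestronglyMeasurable hUm
    have hgm : AEStronglyMeasurable (fun z => (g z : ℂ)) (volume.restrict C.U) :=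
      (Complex.measurable_ofReal.comp hg).aestronglyMeasurable
    have hJm : AEStronglyMeasurable (fun z => star (ev C.J z)) (volume.restrict C.U) :=
      (continuous_star.comp hJs.continuous).aestronglyMeasurable
    refine tendsto_integral_of_dominated_convergence _ ?_ hbd ?_ ?_
    · intro i
      have h1 : Continuous (cf (χ i)) := Complex.continuous_ofReal.comp (hχ i).1.continuous
      exact hgm.mul ((h1.aestronglyMeasurable.mul ha.1).mul (hJm.mul hem))
    · intro i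
      refine (ae_restrict_iff' hUm).2 (Eventually.of_forall fun z hz => ?_)
      rw [norm_mul, norm_mul, norm_mul, norm_mul, norm_star, hexp, Complex.norm_real,
        Real.norm_eq_abs]
      have h1 : ‖cf (χ i) z‖ ≤ 1 := by
        have h2 := (hχ i).2.2.2 z
        simp only [cf]
        rw [Complex.norm_real, Real.norm_of_nonneg h2.1]
        exact h2.2
      have hu0 : 0 ≤ C.u z := le_trans (mul_nonneg ha0.le (hsz z)) (hub z hz).1
      have h3 := hgB z hz
      have h4 : |g z| * (‖a z‖ * ‖ev C.J z‖) ≤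
          (‖a z‖ ^ 2 + B ^ 2 * (C.u z ^ 2 * ‖ev C.J z‖ ^ 2)) / 2 := by
        have h5 : |g z| * ‖ev C.J z‖ ≤ (B * C.u z) * ‖ev C.J z‖ :=
          mul_le_mul_of_nonneg_right h3 (norm_nonneg _)
        have h6 : ‖a z‖ * (|g z| * ‖ev C.J z‖) ≤ ‖a z‖ * ((B * C.u z) * ‖ev C.J z‖) :=
          mul_le_mul_of_nonneg_left h5 (norm_nonneg _)
        nlinarith [sq_nonneg (‖a z‖ - (B * C.u z) * ‖ev C.J z‖)]
      have h7 : |g z| * (‖cf (χ i) z‖ * ‖a z‖ * (‖ev C.J z‖ * Real.exp (-C.u z))) ≤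
          |g z| * (1 * ‖a z‖ * (‖ev C.J z‖ * Real.exp (-C.u z))) := by
        refine mul_le_mul_of_nonneg_left ?_ (abs_nonneg _)
        refine mul_le_mul_of_nonneg_right ?_ (by positivity)
        exact mul_le_mul_of_nonneg_right h1 (norm_nonneg _)
      refine h7.trans ?_
      have h8 := mul_le_mul_of_nonneg_right h4 (Real.exp_pos (-C.u z)).le
      refine (le_of_eq ?_).trans (h8.trans (le_of_eq ?_))
      · ring
      · ring
    · refine (ae_restrict_iff' hUm).2 (Eventually.of_forall fun z hz => ?_)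
      refine tendsto_const_nhds.congr' ?_
      filter_upwards [hχ1 z hz] with i hi
      simp only [cf, hi, star_mul']
      have e5 : star ((g z : ℝ) : ℂ) = (g z : ℂ) := Complex.conj_ofReal _
      rw [e5]
      push_cast
      ring
  -- conclusion
  have hAX : 0 ≤ A * X := mul_nonneg hA hX0
  have hfin : ∀ s : ℝ, 0 < s → ‖inn C.U C.u a (fun z => (g z : ℂ) * ev C.J z)‖ ≤
      Real.sqrt (A * X) + X / s / 2 := by
    intro s hs
    have h1 : Tendsto (fun i => Real.sqrt (A * X) + (s * (B ^ 2 * b0 ^ 2 *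
        ∫ z in C.U, κ i z * (1 + C.sz z ^ 2) * Real.exp (-C.u z) * ‖ev C.J z‖ ^ 2) + X / s) / 2)
        atTop (𝓝 (Real.sqrt (A * X) + (s * (B ^ 2 * b0 ^ 2 * 0) + X / s) / 2)) :=
      ((((hT.const_mul _).const_mul s).add_const (X / s)).div_const 2).const_add _
    have h2 := le_of_tendsto_of_tendsto' hSlim.norm h1 (fun i => by
      have h3 : ‖T i - S i‖ ≤ Real.sqrt (A * X) := Real.le_sqrt_of_sq_le (hTS i)
      have h4 : ‖S i‖ ≤ ‖T i - S i‖ + ‖T i‖ := by
        have : S i = T i - (T i - S i) := by ring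
        calc ‖S i‖ = ‖T i - (T i - S i)‖ := by rw [← this]
          _ ≤ ‖T i‖ + ‖T i - S i‖ := norm_sub_le _ _
          _ = _ := add_comm _ _
      exact h4.trans (add_le_add h3 (hTb i s hs)))
    simpa using h2
  have h3 : Tendsto (fun s : ℝ => Real.sqrt (A * X) + X / s / 2) atTop
      (𝓝 (Real.sqrt (A * X) + 0 / 2)) :=
    ((tendsto_const_nhds.div_atTop tendsto_id).div_const 2).const_add _
  have h4 : ‖inn C.U C.u a (fun z => (g z : ℂ) * ev C.J z)‖ ≤ Real.sqrt (A * X) + 0 / 2 :=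
    ge_of_tendsto h3 (by
      filter_upwards [eventually_gt_atTop (0 : ℝ)] with s hs'
      exact hfin s hs')
  rw [zero_div, add_zero] at h4
  calc ‖inn C.U C.u a (fun z => (g z : ℂ) * ev C.J z)‖ ^ 2 ≤ Real.sqrt (A * X) ^ 2 :=
        pow_le_pow_left₀ (norm_nonneg _) h4 2
    _ = A * X := Real.sq_sqrt hAX

end Pool.Agent.Helper15.KP
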